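import Pool.Agent.H87.D3.Targets
import Pool.Agent.H35.SN.POH

set_option autoImplicit false

namespace Pool.Agent.H59.D3

open MeasureTheory Metric Set Filter Topology Pool.Agent.H87.SN Pool.Agent.H87.SH Pool.Agent.H87.AX
open Pool.Agent.H87.D3 Pool.Agent.H35.SN
open scoped ContDiff RealInnerProductSpace ENNReal

theorem pid_pw {m : ℕ} (hLA1 : Pool.Agent.H87.SN.T_LA1) (T : E (1 + 2) →L[ℝ] E m)
    (x : E (1 + 2)) (F : E (1 + 2) →L[ℝ] ℝ) (f : ℝ) (hJ : F (Jm 1 x) = 0) :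
    statF T (f • Pm 1 + F.smulRight (Pm 1 x)) =
      (2 * f - (- F (Pm 1 x))) * nzs T +
      (- F (Pm 1 x)) * ((rho x ^ 2)⁻¹ * ‖T (Pm 1 x)‖ ^ 2) -
      (- F (Pm 1 x)) * ((rho x ^ 2)⁻¹ * ‖T (Jm 1 x)‖ ^ 2) -
      2 * F (bv 2) * ⟪T (bv 2), T (Pm 1 x)⟫ := by
  rw [statF_field]
  have hρe : rho x ^ 2 = x 0 ^ 2 + x 1 ^ 2 := by
    unfold rho
    rw [Real.sq_sqrt (by positivity)]
  have hsum : ∑ i : Fin 1, F (bv i.succ.succ) • T (bv i.succ.succ) = F (bv 2) • T (bv 2) := by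
    rw [Fin.sum_univ_one]
    rfl
  have hHJ := hJ
  rw [map_Jm] at hHJ
  simp only [smul_eq_mul] at hHJ
  have hHP : F (Pm 1 x) = x 0 * F (bv 0) + x 1 * F (bv 1) := by
    rw [map_Pm]
    simp only [smul_eq_mul]
  by_cases hρ : rho x = 0
  · rw [hρ] at hρe
    have h0 : x 0 = 0 := by nlinarith [sq_nonneg (x 0), sq_nonneg (x 1)]
    have h1 : x 1 = 0 := by nlinarith [sq_nonneg (x 0), sq_nonneg (x 1)]
    have hTP : T (Pm 1 x) = 0 := by
      rw [map_Pm, h0, h1, zero_smul, zero_smul, add_zero]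
    have hTJ : T (Jm 1 x) = 0 := by
      rw [map_Jm, h0, h1, neg_zero, zero_smul, zero_smul, add_zero]
    have hFP : F (Pm 1 x) = 0 := by
      rw [hHP, h0, h1]
      ring
    rw [hTP, hTJ, hFP]
    simp
    ring
  · have hρ2 : rho x ^ 2 ≠ 0 := pow_ne_zero 2 hρ
    have hn3 : nsq T = nzs T + (rho x ^ 2)⁻¹ * ‖T (Pm 1 x)‖ ^ 2 +
        (rho x ^ 2)⁻¹ * ‖T (Jm 1 x)‖ ^ 2 := by
      have h1 := hLA1 1 m T x
      field_simp
      linarith
    have hwH : rho x ^ 2 • (∑ i, F (bv i) • T (bv i)) = (F (Pm 1 x)) • T (Pm 1 x) +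
        rho x ^ 2 • (F (bv 2) • T (bv 2)) := by
      rw [sum_split, hsum, smul_add]
      congr 1
      rw [map_Pm T x, smul_add, smul_add, smul_smul, smul_smul, smul_smul, smul_smul, hHP, hρe]
      congr 1
      · congr 1
        linear_combination (-(x 1)) * hHJ
      · congr 1
        linear_combination (x 0) * hHJ
    have hin : ⟪∑ i, F (bv i) • T (bv i), T (Pm 1 x)⟫ =
        F (Pm 1 x) * ((rho x ^ 2)⁻¹ * ‖T (Pm 1 x)‖ ^ 2) + F (bv 2) * ⟪T (bv 2), T (Pm 1 x)⟫ := by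
      have h1 := congrArg (fun w : E m => ⟪w, T (Pm 1 x)⟫) hwH
      simp only [inner_add_left, real_inner_smul_left] at h1
      rw [real_inner_self_eq_norm_sq] at h1
      have h2 : ⟪∑ i, F (bv i) • T (bv i), T (Pm 1 x)⟫ = (rho x ^ 2)⁻¹ *
          (rho x ^ 2 * ⟪∑ i, F (bv i) • T (bv i), T (Pm 1 x)⟫) := by
        rw [← mul_assoc, inv_mul_cancel₀ hρ2, one_mul]
      rw [h2, h1]
      field_simp
    rw [hin, hn3]
    ring

theorem pf_PID (hLA1 : Pool.Agent.H87.SN.T_LA1) : Pool.Agent.H87.D3.T_PID := by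
  intro m G hG hS f hf hfc hfs hJ
  have h1 := stat_ball (ζ := f) (η := fun _ => (1 : ℝ)) hS hf hfc hfs contDiff_const
  rw [← h1]
  congr 1
  funext x
  rw [field_fderiv hf contDiff_const x]
  have h2 : f x • fderiv ℝ (fun _ : E (1 + 2) => (1 : ℝ)) x + (1 : ℝ) • fderiv ℝ f x =
      fderiv ℝ f x := by
    rw [fderiv_fun_const]
    simp
  rw [h2, mul_one]
  exact (pid_pw hLA1 (G x) x (fderiv ℝ f x) (f x) (hJ x)).symm

end Pool.Agent.H59.D3
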