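import Pool.Agent.H87.D3.Targets3

set_option autoImplicit false

namespace Pool.Agent.H59.D3.SUP

open MeasureTheory Metric Set Filter Topology Pool.Agent.H87.SN Pool.Agent.H87.SH Pool.Agent.H87.AX
open Pool.Agent.H87.D3
open scoped ContDiff RealInnerProductSpace ENNReal

theorem rho_eq (x : E (1 + 2)) : rho x = ‖((⟨x 0, x 1⟩ : ℂ))‖ := by
  rw [Complex.norm_def, Complex.normSq_mk]
  unfold rho
  congr 1
  ring

theorem norm_sq3 (x : E (1 + 2)) : ‖x‖ ^ 2 = x 0 ^ 2 + x 1 ^ 2 + x 2 ^ 2 := by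
  rw [EuclideanSpace.norm_sq_eq]
  simp [Fin.sum_univ_three]

theorem rho_le_norm (x : E (1 + 2)) : rho x ≤ ‖x‖ := by
  unfold rho
  apply Real.sqrt_le_iff.2
  refine ⟨norm_nonneg _, ?_⟩
  rw [norm_sq3]
  nlinarith [sq_nonneg (x 2)]

theorem coord_le (x : E (1 + 2)) : |x 2| ≤ ‖x‖ := by
  apply abs_le_of_sq_le_sq _ (norm_nonneg _)
  rw [norm_sq3]
  nlinarith [sq_nonneg (x 0), sq_nonneg (x 1)]

theorem rho_lip (x y : E (1 + 2)) : rho y ≤ rho x + ‖y - x‖ := by
  have h1 : rho y ≤ rho x + rho (y - x) := by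
    rw [rho_eq, rho_eq, rho_eq]
    have : ((⟨y 0, y 1⟩ : ℂ)) = ⟨x 0, x 1⟩ + ⟨(y - x) 0, (y - x) 1⟩ := by
      apply Complex.ext <;> simp
    rw [this]
    exact norm_add_le _ _
  exact h1.trans (by have := rho_le_norm (y - x); linarith)

theorem bs_sq {m : ℕ} (G : V → V →L[ℝ] E m) (x : V) (t : ℝ) : bs G x t * bs G x t = bt G x t := by
  unfold bs
  rw [← ENNReal.rpow_add_of_nonneg _ _ (by norm_num) (by norm_num)]
  norm_num

theorem bs_le {m : ℕ} (hBTF : T_BTF) (G : V → V →L[ℝ] E m) (x y : V) (h : ℝ) (hh : 0 < h)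
    (hd : dist x y ≤ 8 * h) : bs G x h ≤ 3 * bs G y (2 * h) := by
  have h1 := hBTF.2.2 m G x y h hh hd
  unfold bs
  calc bt G x h ^ (1 / 2 : ℝ) ≤ (8 * bt G y (2 * h)) ^ (1 / 2 : ℝ) :=
        ENNReal.rpow_le_rpow h1 (by norm_num)
    _ = (8 : ℝ≥0∞) ^ (1 / 2 : ℝ) * bt G y (2 * h) ^ (1 / 2 : ℝ) :=
        ENNReal.mul_rpow_of_nonneg _ _ (by norm_num)
    _ ≤ 3 * bt G y (2 * h) ^ (1 / 2 : ℝ) := by
        gcongr
        have h2 : (8 : ℝ≥0∞) ≤ 3 ^ (2 : ℝ) := by
          rw [ENNReal.rpow_two]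
          norm_num
        calc (8 : ℝ≥0∞) ^ (1 / 2 : ℝ) ≤ ((3 : ℝ≥0∞) ^ (2 : ℝ)) ^ (1 / 2 : ℝ) :=
              ENNReal.rpow_le_rpow h2 (by norm_num)
          _ = 3 := by
              rw [← ENNReal.rpow_mul]
              norm_num

theorem vol_ball (x : V) (r : ℝ) (hr : 0 < r) :
    volume (ball x r) = ENNReal.ofReal (r ^ 3) * volume (ball (0 : V) 1) := by
  rw [Measure.addHaar_ball _ _ hr.le]
  congr 2
  simp

theorem pf_SUP (_hMUF : T_MUF) (hBTM : T_BTM) (hBTF : T_BTF) : T_SUP := by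
  set c : ℝ := (volume (ball (0 : V) 1)).toReal with hc
  have hc0 : 0 < c := ENNReal.toReal_pos (measure_ball_pos _ _ one_pos).ne'
    measure_ball_lt_top.ne
  refine ⟨9 * 512 / c, by positivity, ?_⟩
  intro m G hG h hh hh1
  set A : Set V := {x : V | rho x < h / 4 ∧ |x 2| < 3 / 8 + h} with hA
  set B : Set V := {x : V | rho x < h / 2 ∧ |x 2| < 7 / 16} with hB
  have hbm : Measurable (fun x : V => bs G x (2 * h)) := by
    unfold bs
    exact (hBTM m G hG (2 * h) (by linarith)).pow_const _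
  have hrc : Continuous (fun x : V => rho x) := by
    unfold rho
    have h0 : Continuous (fun x : V => x 0) := (EuclideanSpace.proj (𝕜 := ℝ) 0).continuous
    have h1 : Continuous (fun x : V => x 1) := (EuclideanSpace.proj (𝕜 := ℝ) 1).continuous
    exact ((h0.pow 2).add (h1.pow 2)).sqrt
  have h2c : Continuous (fun x : V => |x 2|) := by
    have h0 : Continuous (fun x : V => x 2) := (EuclideanSpace.proj (𝕜 := ℝ) 2).continuous
    exact h0.abs
  have hBm : MeasurableSet B :=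
    ((isOpen_lt hrc continuous_const).inter (isOpen_lt h2c continuous_const)).measurableSet
  set T : ℝ≥0∞ := ∫⁻ x in B, bs G x (2 * h) with hT
  set v : ℝ≥0∞ := ENNReal.ofReal ((h / 8) ^ 3) * volume (ball (0 : V) 1) with hv
  have hvx : ∀ x : V, volume (ball x (h / 8)) = v := fun x => vol_ball x (h / 8) (by linarith)
  have hv0 : v ≠ 0 := by
    rw [← hvx 0]
    exact (measure_ball_pos _ _ (by linarith)).ne'
  have hvt : v ≠ ⊤ := by
    rw [← hvx 0]
    exact measure_ball_lt_top.ne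
  -- the kernel
  set g : V × V → ℝ≥0∞ := fun p => indicator {p : V × V | dist p.2 p.1 < h / 8}
    (fun p => bs G p.2 (2 * h)) p with hg
  have hSm : MeasurableSet {p : V × V | dist p.2 p.1 < h / 8} :=
    (isOpen_lt (continuous_snd.dist continuous_fst) continuous_const).measurableSet
  have hgm : Measurable g := (hbm.comp measurable_snd).indicator hSm
  set F : V → ℝ≥0∞ := fun x => ∫⁻ y in B, g (x, y) with hF
  have hFm : Measurable F := hgm.lintegral_prod_right'
  have hgx : ∀ x y, g (x, y) = indicator (ball x (h / 8)) (fun y => bs G y (2 * h)) y := by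
    intro x y
    simp only [hg, indicator]
    rfl
  have hFT : ∀ x, F x ≤ T := by
    intro x
    refine lintegral_mono fun y => ?_
    rw [hgx]
    exact indicator_le_self _ _ _
  have hmem : ∀ x ∈ A, ball x (h / 8) ⊆ B := by
    intro x hx y hy
    obtain ⟨hx1, hx2⟩ := hx
    rw [mem_ball, dist_eq_norm] at hy
    have h1 := rho_lip x y
    have h2 := coord_le (y - x)
    have h3 : |y 2| ≤ |x 2| + |(y - x) 2| := by
      have : y 2 = x 2 + (y - x) 2 := by simp
      rw [this]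
      exact abs_add_le _ _
    exact ⟨by linarith, by linarith⟩
  have hvF : ∀ x ∈ A, v * bs G x h ≤ 3 * F x := by
    intro x hx
    have h1 : F x = ∫⁻ y in ball x (h / 8), bs G y (2 * h) := by
      simp only [hF, hgx]
      rw [setLIntegral_indicator measurableSet_ball, inter_eq_left.2 (hmem x hx)]
    rw [h1, ← hvx x]
    have h2 : volume (ball x (h / 8)) * bs G x h = ∫⁻ _ in ball x (h / 8), bs G x h := by
      rw [setLIntegral_const, mul_comm]
    rw [h2, ← lintegral_const_mul _ hbm]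
    refine setLIntegral_mono (hbm.const_mul 3) fun y hy => ?_
    refine bs_le hBTF G x y h hh ?_
    rw [mem_ball, dist_comm] at hy
    linarith
  have hFi : ∫⁻ x in A, F x ≤ T * v := by
    calc ∫⁻ x in A, F x ≤ ∫⁻ x, F x := setLIntegral_le_lintegral _ _
      _ = ∫⁻ y in B, ∫⁻ x, g (x, y) := lintegral_lintegral_swap hgm.aemeasurable
      _ = ∫⁻ y in B, bs G y (2 * h) * v := by
          refine lintegral_congr fun y => ?_
          have h1 : ∀ x, g (x, y) = indicator (ball y (h / 8)) (fun _ => bs G y (2 * h)) x := by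
            intro x
            simp only [hg, indicator, mem_setOf_eq, mem_ball, dist_comm x y]
          simp_rw [h1]
          rw [lintegral_indicator measurableSet_ball, setLIntegral_const, hvx]
      _ = T * v := by rw [lintegral_mul_const _ hbm]
  have hpt : ∀ x ∈ A, bt G x h ≤ (v⁻¹ * (3 * T)) * (v⁻¹ * 3) * F x := by
    intro x hx
    have h1 : bs G x h ≤ v⁻¹ * (3 * F x) := by
      have h2 := hvF x hx
      calc bs G x h = v⁻¹ * (v * bs G x h) := by
            rw [← mul_assoc, ENNReal.inv_mul_cancel hv0 hvt, one_mul]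
        _ ≤ _ := by gcongr
    rw [← bs_sq]
    calc bs G x h * bs G x h ≤ (v⁻¹ * (3 * F x)) * (v⁻¹ * (3 * F x)) := mul_le_mul' h1 h1
      _ ≤ (v⁻¹ * (3 * T)) * (v⁻¹ * (3 * F x)) := by
          have := hFT x
          gcongr
      _ = _ := by ring
  have hmain : ∫⁻ x in A, bt G x h ≤ (v⁻¹ * (3 * T)) * (v⁻¹ * 3) * (T * v) := by
    have hAm : MeasurableSet A :=
      ((isOpen_lt hrc continuous_const).inter (isOpen_lt h2c continuous_const)).measurableSet
    calc ∫⁻ x in A, bt G x h ≤ ∫⁻ x in A, (v⁻¹ * (3 * T)) * (v⁻¹ * 3) * F x :=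
          setLIntegral_mono (hFm.const_mul _) hpt
      _ = (v⁻¹ * (3 * T)) * (v⁻¹ * 3) * ∫⁻ x in A, F x := lintegral_const_mul _ hFm
      _ ≤ _ := by gcongr
  refine hmain.trans (le_of_eq ?_)
  have h1 : (v⁻¹ * (3 * T)) * (v⁻¹ * 3) * (T * v) = (9 * v⁻¹) * (v⁻¹ * v) * T ^ 2 := by
    ring
  rw [h1, ENNReal.inv_mul_cancel hv0 hvt, mul_one]
  congr 1
  have hvr : v = ENNReal.ofReal ((h / 8) ^ 3 * c) := by
    rw [ENNReal.ofReal_mul (by positivity), hc, ENNReal.ofReal_toReal measure_ball_lt_top.ne]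
  rw [hvr, ← ENNReal.ofReal_inv_of_pos (by positivity)]
  have h9 : (9 : ℝ≥0∞) = ENNReal.ofReal 9 := by norm_num
  rw [h9, ← ENNReal.ofReal_mul (by norm_num)]
  congr 1
  field_simp
  norm_num

end Pool.Agent.H59.D3.SUP
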